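import Pool.Agent.helper40.TW.SpecG

set_option autoImplicit false

open Complex MeasureTheory Metric
open scoped ComplexConjugate ArithmeticFunction.vonMangoldt

namespace Pool.Agent.TWG

open Pool.Agent.helper6.LD (wt)
open Pool.Agent.helper85.BVP (ex)
open Pool.Agent.TW (Win Pw)

theorem CNT_bdd_bx (α T : ℝ) : Bornology.IsBounded (bx α T) := by
  refine (isBounded_iff_forall_norm_le).2 ⟨|1 - α| + 1 + |T|, fun z hz => ?_⟩
  have h1 := hz.1
  have h2 := hz.2.1
  have h3 := hz.2.2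
  have h4 : |z.re| ≤ |1 - α| + 1 := by
    rw [abs_le]
    constructor
    · have := neg_abs_le (1 - α)
      linarith
    · have := abs_nonneg (1 - α)
      linarith
  have h5 : |z.im| ≤ |T| := h3.trans (le_abs_self T)
  have := Complex.norm_le_abs_re_add_abs_im z
  linarith

theorem CNT_int (m c d a b : ℝ) (hac : a < c) (hcd : c ≤ d) (hdb : d ≤ b) :
    ∫ v in a..b, (Set.Icc c d).indicator (fun _ => m) v = (d - c) * m := by
  rw [intervalIntegral.integral_of_le (by linarith), setIntegral_indicator measurableSet_Icc]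
  have h : Set.Ioc a b ∩ Set.Icc c d = Set.Icc c d := by
    apply Set.inter_eq_right.2
    intro x hx
    exact ⟨lt_of_lt_of_le hac hx.1, hx.2.trans hdb⟩
  rw [h, setIntegral_const, smul_eq_mul, Real.volume_real_Icc_of_le hcd]

theorem CNT_intg (m c d a b : ℝ) :
    IntervalIntegrable (fun v => (Set.Icc c d).indicator (fun _ => m) v) volume a b := by
  rw [intervalIntegrable_iff]
  have h : IntegrableOn (fun _ : ℝ => m) (Set.uIoc a b) volume :=
    (intervalIntegrable_iff.1 intervalIntegrable_const)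
  exact h.indicator measurableSet_Icc

theorem CNT (hZFI : ZFI_stmt) : CNT_stmt := by
  classical
  intro q χ hq hχ r T F hr hr1 hT hF hb
  obtain ⟨-, -, -, hmem, -, -, -⟩ := hZFI q χ hq hχ
  set Z := ZS χ (bx (r / 2) T) with hZ
  have hZmem : ∀ ρ, ρ ∈ Z ↔ ρ ∈ bx (r / 2) T ∧ LL χ ρ = 0 := fun ρ => hmem _ (CNT_bdd_bx _ _) ρ
  have h1 : r * nz χ (bx (r / 2) T) =
      ∑ ρ ∈ Z, ∫ v in (-(T + 1))..(T + 1),
        (Set.Icc (ρ.im - r / 2) (ρ.im + r / 2)).indicator (fun _ => (mz χ ρ : ℝ)) v := by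
    rw [nz, Finset.mul_sum]
    refine Finset.sum_congr rfl fun ρ hρ => ?_
    have hb := ((hZmem ρ).1 hρ).1.2.2
    rw [abs_le] at hb
    rw [CNT_int _ _ _ _ _ (by linarith [hb.1]) (by linarith) (by linarith [hb.2])]
    ring
  rw [h1, ← intervalIntegral.integral_finsetSum fun ρ _ => CNT_intg _ _ _ _ _]
  have h0 : IntervalIntegrable (fun x => ∑ i ∈ Z,
      (Set.Icc (i.im - r / 2) (i.im + r / 2)).indicator (fun _ => (mz χ i : ℝ)) x) volume
      (-(T + 1)) (T + 1) := by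
    have h := IntervalIntegrable.sum (μ := volume) (a := -(T + 1)) (b := T + 1) Z
      (f := fun (i : ℂ) (x : ℝ) =>
        (Set.Icc (i.im - r / 2) (i.im + r / 2)).indicator (fun _ => (mz χ i : ℝ)) x)
      (fun ρ _ => CNT_intg (mz χ ρ : ℝ) _ _ _ _)
    have he : (∑ i ∈ Z, fun x : ℝ =>
        (Set.Icc (i.im - r / 2) (i.im + r / 2)).indicator (fun _ => (mz χ i : ℝ)) x) =
        fun x => ∑ i ∈ Z,
        (Set.Icc (i.im - r / 2) (i.im + r / 2)).indicator (fun _ => (mz χ i : ℝ)) x := by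
      funext x
      rw [Finset.sum_apply]
    rw [← he]
    exact h
  refine intervalIntegral.integral_mono_on (by linarith) h0 (hF.intervalIntegrable _ _) ?_
  intro v hv
  refine le_trans ?_ (hb v (abs_le.2 ⟨hv.1, hv.2⟩))
  have h2 : ∀ ρ ∈ Z, (Set.Icc (ρ.im - r / 2) (ρ.im + r / 2)).indicator (fun _ => (mz χ ρ : ℝ)) v =
      if v ∈ Set.Icc (ρ.im - r / 2) (ρ.im + r / 2) then (mz χ ρ : ℝ) else 0 := fun ρ _ => by
    rw [Set.indicator_apply]
  rw [Finset.sum_congr rfl h2, ← Finset.sum_filter, nz]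
  refine Finset.sum_le_sum_of_subset_of_nonneg ?_ fun _ _ _ => by positivity
  intro ρ hρ
  rw [Finset.mem_filter] at hρ
  obtain ⟨hρ1, hρ2⟩ := hρ
  obtain ⟨hρ3, hρ4⟩ := (hZmem ρ).1 hρ1
  rw [hmem _ isBounded_closedBall]
  refine ⟨?_, hρ4⟩
  rw [mem_closedBall, dist_eq_norm]
  refine (Complex.norm_le_abs_re_add_abs_im _).trans ?_
  have e1 : (ρ - sp 0 v).re = ρ.re - 1 := by simp [sp]
  have e2 : (ρ - sp 0 v).im = ρ.im - v := by simp [sp]
  rw [e1, e2]
  have h5 : |ρ.re - 1| ≤ r / 2 := by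
    rw [abs_le]
    constructor
    · linarith [hρ3.1]
    · linarith [hρ3.2.1]
  have h6 : |ρ.im - v| ≤ r / 2 := by
    rw [abs_le]
    constructor
    · linarith [hρ2.1, hρ2.2]
    · linarith [hρ2.1, hρ2.2]
  linarith

end Pool.Agent.TWG
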